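import Mathlib

/-!
# MP_03d093_al : ball growth and spherical growth of a finitely generated group
-/

set_option autoImplicit false

namespace Pool.Agent.Lib.MP_03d093_al

universe u

section Defs

variable {H : Type u} [Group H]

/-- The word length of `g` with respect to `S`: the least length of a list of elements of `S` and
inverses of elements of `S` whose product is `g`. -/
noncomputable def wordLength (S : Set H) (g : H) : ℕ :=
  sInf {n | ∃ l : List H, (∀ s ∈ l, s ∈ S ∨ s⁻¹ ∈ S) ∧ l.length = n ∧ l.prod = g}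

/-- The growth function `γ(n) = #{g ∈ H : |g| ≤ n}` of `H` with respect to `S`. -/
noncomputable def ballGrowth (S : Set H) (n : ℕ) : ℕ := {g | wordLength S g ≤ n}.ncard

/-- The spherical growth function `γ^sph(n) = #{g ∈ H : |g| = n}` of `H` with respect to `S`. -/
noncomputable def sphGrowth (S : Set H) (n : ℕ) : ℕ := {g | wordLength S g = n}.ncard

end Defs

/-- `f ⪯ h` if there is an integer `C ≥ 1` with `f(n) ≤ h(Cn)` for all `n ≥ 1`. -/
def Dominated (f h : ℕ → ℕ) : Prop := ∃ C : ℕ, 1 ≤ C ∧ ∀ n : ℕ, 1 ≤ n → f n ≤ h (C * n)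

/-- `f ∼ h` if `f ⪯ h` and `h ⪯ f`. -/
def GrowthEquiv (f h : ℕ → ℕ) : Prop := Dominated f h ∧ Dominated h f

/-! ## Basic facts about the word length -/

section General

variable {H : Type u} [Group H] {S : Set H}

theorem exists_word (hS : Subgroup.closure S = ⊤) (g : H) :
    ∃ l : List H, (∀ s ∈ l, s ∈ S ∨ s⁻¹ ∈ S) ∧ l.prod = g := by
  have hg' : g ∈ (Subgroup.closure S).toSubmonoid := by
    rw [hS]
    exact Subgroup.mem_top g
  rw [Subgroup.closure_toSubmonoid] at hg'
  obtain ⟨l, hl, hp⟩ := Submonoid.exists_list_of_mem_closure hg'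
  refine ⟨l, fun s hs => ?_, hp⟩
  rcases hl s hs with h | h
  · exact Or.inl h
  · exact Or.inr h

theorem exists_geodesic (hS : Subgroup.closure S = ⊤) (g : H) :
    ∃ l : List H, (∀ s ∈ l, s ∈ S ∨ s⁻¹ ∈ S) ∧ l.length = wordLength S g ∧ l.prod = g := by
  have hne : {n | ∃ l : List H,
    (∀ s ∈ l, s ∈ S ∨ s⁻¹ ∈ S) ∧ l.length = n ∧ l.prod = g}.Nonempty := by
    obtain ⟨l, hl, hp⟩ := exists_word hS g
    exact ⟨l.length, l, hl, rfl, hp⟩
  exact Nat.sInf_mem hne

theorem wordLength_le {l : List H} (hl : ∀ s ∈ l, s ∈ S ∨ s⁻¹ ∈ S) :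
    wordLength S l.prod ≤ l.length :=
  Nat.sInf_le ⟨l, hl, rfl, rfl⟩

theorem wordLength_mul (hS : Subgroup.closure S = ⊤) (g h : H) :
    wordLength S (g * h) ≤ wordLength S g + wordLength S h := by
  obtain ⟨l, hl, hln, hlp⟩ := exists_geodesic hS g
  obtain ⟨m, hm, hmn, hmp⟩ := exists_geodesic hS h
  have := wordLength_le (S := S) (l := l ++ m) (by
    intro s hs
    rcases List.mem_append.1 hs with h | h
    · exact hl s h
    · exact hm s h)
  rw [List.prod_append, hlp, hmp, List.length_append, hln, hmn] at this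
  exact this

theorem wordLength_inv_le (hS : Subgroup.closure S = ⊤) (g : H) :
    wordLength S g⁻¹ ≤ wordLength S g := by
  obtain ⟨l, hl, hln, hlp⟩ := exists_geodesic hS g
  have := wordLength_le (S := S) (l := (l.map (fun x => x⁻¹)).reverse) (by
    intro s hs
    rw [List.mem_reverse, List.mem_map] at hs
    obtain ⟨t, ht, rfl⟩ := hs
    rcases hl t ht with h | h
    · right; simpa using h
    · left; exact h)
  rw [← List.prod_inv_reverse, hlp] at this
  simpa [hln] using this

theorem wordLength_inv (hS : Subgroup.closure S = ⊤) (g : H) :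
    wordLength S g⁻¹ = wordLength S g := by
  apply le_antisymm (wordLength_inv_le hS g)
  have := wordLength_inv_le hS g⁻¹
  rwa [inv_inv] at this

theorem wordLength_one : wordLength S (1 : H) = 0 := by
  have := wordLength_le (S := S) (l := []) (by simp)
  simpa using this

theorem wordLength_gen {s : H} (hs : s ∈ S ∨ s⁻¹ ∈ S) : wordLength S s ≤ 1 := by
  have := wordLength_le (S := S) (l := [s]) (by simpa using hs)
  simpa using this

/-! ## Balls are finite -/

theorem words_finite (hfin : S.Finite) (n : ℕ) :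
    {g : H | ∃ l : List H, l.length ≤ n ∧ (∀ s ∈ l, s ∈ S ∨ s⁻¹ ∈ S) ∧ l.prod = g}.Finite := by
  have hT : {s : H | s ∈ S ∨ s⁻¹ ∈ S}.Finite := by
    have h1 : {s : H | s ∈ S ∨ s⁻¹ ∈ S} = S ∪ S⁻¹ := by
      ext s
      simp
    rw [h1]
    exact hfin.union hfin.inv
  induction n with
  | zero =>
    refine Set.Finite.subset (Set.finite_singleton 1) ?_
    rintro g ⟨l, hl, -, rfl⟩
    have : l = [] := List.length_eq_zero_iff.1 (Nat.le_zero.1 hl)
    subst this
    simp
  | succ n ih =>
    refine Set.Finite.subset ((Set.finite_singleton 1).union (hT.mul ih)) ?_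
    rintro g ⟨l, hl, hs, rfl⟩
    cases l with
    | nil => left; simp
    | cons x l =>
      right
      refine ⟨x, hs x (by simp), l.prod, ⟨l, by simpa using hl, fun s h => hs s (by simp [h]), rfl⟩, ?_⟩
      simp

theorem ball_finite (hfin : S.Finite) (hS : Subgroup.closure S = ⊤) (n : ℕ) :
    {g : H | wordLength S g ≤ n}.Finite := by
  refine Set.Finite.subset (words_finite hfin n) ?_
  intro g hn
  obtain ⟨l, hl, hln, hlp⟩ := exists_geodesic hS g
  exact ⟨l, hln ▸ hn, hl, hlp⟩

theorem sphere_finite (hfin : S.Finite) (hS : Subgroup.closure S = ⊤) (n : ℕ) :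
    {g : H | wordLength S g = n}.Finite :=
  (ball_finite hfin hS n).subset fun _ hg => le_of_eq hg

theorem ball_mono (hfin : S.Finite) (hS : Subgroup.closure S = ⊤) {m n : ℕ} (h : m ≤ n) :
    ballGrowth S m ≤ ballGrowth S n :=
  Set.ncard_le_ncard (fun _ hg => le_trans hg h) (ball_finite hfin hS n)

theorem ball_pos (hfin : S.Finite) (hS : Subgroup.closure S = ⊤) (n : ℕ) :
    1 ≤ ballGrowth S n :=
  (Set.ncard_pos (ball_finite hfin hS n)).2 ⟨1, by simp [wordLength_one]⟩

theorem sph_le_ball (hfin : S.Finite) (hS : Subgroup.closure S = ⊤) (n : ℕ) :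
    sphGrowth S n ≤ ballGrowth S n :=
  Set.ncard_le_ncard (fun _ hg => le_of_eq hg) (ball_finite hfin hS n)

/-- In an infinite group there are elements of every prescribed length. -/
theorem exists_length [Infinite H] (hfin : S.Finite) (hS : Subgroup.closure S = ⊤) (n : ℕ) :
    ∃ l : List H, (∀ s ∈ l, s ∈ S ∨ s⁻¹ ∈ S) ∧ l.length = n ∧ wordLength S l.prod = n := by
  obtain ⟨g, hg⟩ : ∃ g : H, n < wordLength S g := by
    by_contra hcon
    push Not at hcon
    exact Set.infinite_univ ((ball_finite hfin hS n).subset fun g _ => hcon g)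
  obtain ⟨l, hl, hln, hlp⟩ := exists_geodesic hS g
  have hl1 : ∀ s ∈ l.take n, s ∈ S ∨ s⁻¹ ∈ S := fun s hs => hl s (List.mem_of_mem_take hs)
  have hl2 : ∀ s ∈ l.drop n, s ∈ S ∨ s⁻¹ ∈ S := fun s hs => hl s (List.mem_of_mem_drop hs)
  have hlen : (l.take n).length = n := by
    rw [List.length_take]; omega
  refine ⟨l.take n, hl1, hlen, ?_⟩
  apply le_antisymm
  · have := wordLength_le hl1
    rwa [hlen] at this
  · have h1 := wordLength_mul hS (l.take n).prod (l.drop n).prod
    rw [← List.prod_append, List.take_append_drop, hlp] at h1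
    have h2 := wordLength_le hl2
    rw [List.length_drop] at h2
    omega

/-! ## Comparison of the ball and the sphere of the same radius -/

/-- A discrete intermediate value property. -/
theorem discrete_ivt (φ : ℕ → ℕ) (m n : ℕ) (h0 : φ 0 ≤ n) (hm : n ≤ φ m)
    (hstep : ∀ i < m, φ (i + 1) ≤ φ i + 1) : ∃ i ≤ m, φ i = n := by
  induction m with
  | zero => exact ⟨0, le_rfl, le_antisymm h0 hm⟩
  | succ m ih =>
    by_cases h : n ≤ φ m
    · obtain ⟨i, hi, hin⟩ := ih h (fun i hi => hstep i (by omega))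
      exact ⟨i, by omega, hin⟩
    · refine ⟨m + 1, le_rfl, ?_⟩
      have := hstep m (by omega)
      omega

/-- In an infinite group `γ(n) ≤ (2n+1) γ^sph(n)`. -/
theorem ball_le_sphere [Infinite H] (hfin : S.Finite) (hS : Subgroup.closure S = ⊤) (n : ℕ) :
    ballGrowth S n ≤ (2 * n + 1) * sphGrowth S n := by
  obtain ⟨l, hl, hlen, hwl⟩ := exists_length hfin hS (2 * n)
  set u : ℕ → H := fun i => (l.take i).prod with hu
  have hsub : {g : H | wordLength S g ≤ n} ⊆
      ⋃ i ∈ Finset.range (2 * n + 1), (fun h => h * (u i)⁻¹) '' {g | wordLength S g = n} := by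
    intro g hgn
    have hgn' : wordLength S g ≤ n := hgn
    obtain ⟨i, hi, hin⟩ := discrete_ivt (fun i => wordLength S (g * u i)) (2 * n) n
      (by simpa [hu] using hgn')
      (by
        have h1 : u (2 * n) = l.prod := by simp [hu, ← hlen]
        have h2 := wordLength_mul hS g⁻¹ (g * u (2 * n))
        rw [inv_mul_cancel_left, h1, hwl, wordLength_inv hS g] at h2
        simp only [h1]
        omega)
      (by
        intro i hi
        have hlt : i < l.length := by omega
        have h1 : u (i + 1) = u i * l[i] := by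
          simp only [hu]
          rw [List.take_succ_eq_append_getElem hlt, List.prod_append]
          simp
        have hsi : l[i] ∈ S ∨ (l[i])⁻¹ ∈ S := hl _ (List.getElem_mem hlt)
        have h2 := wordLength_mul hS (g * u i) l[i]
        have h3 := wordLength_gen hsi
        simp only [h1]
        rw [← mul_assoc]
        omega)
    refine Set.mem_iUnion₂.2 ⟨i, Finset.mem_range.2 (by omega), g * u i, hin, ?_⟩
    simp
  have hfin' : ∀ i, ((fun h => h * (u i)⁻¹) '' {g : H | wordLength S g = n}).Finite :=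
    fun i => (sphere_finite hfin hS n).image _
  have hle := Set.ncard_le_ncard hsub (Set.Finite.biUnion (Finset.finite_toSet _) fun i _ => hfin' i)
  refine hle.trans ?_
  have h2 : ∀ (s : Finset ℕ), (⋃ i ∈ s, (fun h => h * (u i)⁻¹) ''
      {g : H | wordLength S g = n}).ncard ≤ s.card * sphGrowth S n := by
    intro s
    induction s using Finset.induction_on with
    | empty => simp
    | insert x s hx ih =>
      rw [Finset.set_biUnion_insert, Finset.card_insert_of_notMem hx]
      refine (Set.ncard_union_le _ _).trans ?_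
      have := Set.ncard_image_le (f := fun h => h * (u x)⁻¹) (sphere_finite hfin hS n)
      unfold sphGrowth at ih ⊢
      nlinarith
  simpa using h2 (Finset.range (2 * n + 1))

/-! ## The criterion -/

/-- Spheres of different radii are disjoint. -/
theorem sum_sph_le (hfin : S.Finite) (hS : Subgroup.closure S = ⊤) (C n : ℕ) (hC : 1 ≤ C) :
    ∑ j ∈ Finset.Icc n (2 * n), sphGrowth S (C * j) ≤ ballGrowth S (2 * C * n) := by
  classical
  have h1 : ∀ s : Finset ℕ, s ⊆ Finset.Icc n (2 * n) → ∑ j ∈ s, sphGrowth S (C * j) =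
      (⋃ j ∈ s, {g : H | wordLength S g = C * j}).ncard := by
    intro s
    induction s using Finset.induction_on with
    | empty => simp
    | insert x s hx ih =>
      intro hs
      have hdisj : Disjoint {g : H | wordLength S g = C * x}
          (⋃ j ∈ s, {g : H | wordLength S g = C * j}) := by
        rw [Set.disjoint_left]
        intro g hg hg'
        rw [Set.mem_iUnion₂] at hg'
        obtain ⟨j, hj, hgj⟩ := hg'
        have h2 : C * x = C * j := by
          rw [← show wordLength S g = C * x from hg, ← show wordLength S g = C * j from hgj]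
        have h3 : x = j := Nat.eq_of_mul_eq_mul_left hC h2
        exact hx (h3 ▸ hj)
      rw [Finset.sum_insert hx, ih ((Finset.subset_insert x s).trans hs), Finset.set_biUnion_insert,
        Set.ncard_union_eq hdisj (sphere_finite hfin hS _)
          (Set.Finite.biUnion (Finset.finite_toSet _) fun i _ => sphere_finite hfin hS _)]
      rfl
  rw [h1 _ subset_rfl]
  refine Set.ncard_le_ncard ?_ (ball_finite hfin hS _)
  intro g hg
  rw [Set.mem_iUnion₂] at hg
  obtain ⟨j, hj, hgj⟩ := hg
  have h2 : wordLength S g = C * j := hgj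
  show wordLength S g ≤ 2 * C * n
  rw [h2]
  have h3 := (Finset.mem_Icc.1 hj).2
  calc C * j ≤ C * (2 * n) := Nat.mul_le_mul_left C h3
    _ = 2 * C * n := by ring

/-- The growth criterion. -/
theorem criterion [Infinite H] (hfin : S.Finite) (hS : Subgroup.closure S = ⊤) :
    GrowthEquiv (sphGrowth S) (ballGrowth S) ↔
      ∃ C : ℕ, 1 ≤ C ∧ ∀ n : ℕ, 1 ≤ n → n * ballGrowth S n ≤ ballGrowth S (C * n) := by
  constructor
  · rintro ⟨-, C, hC, h⟩
    refine ⟨2 * C, by omega, fun n hn => ?_⟩
    refine le_trans ?_ (sum_sph_le hfin hS C n hC)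
    calc n * ballGrowth S n ≤ (Finset.Icc n (2 * n)).card * ballGrowth S n := by
          apply Nat.mul_le_mul_right
          rw [Nat.card_Icc]
          omega
      _ = ∑ _j ∈ Finset.Icc n (2 * n), ballGrowth S n := by rw [Finset.sum_const, smul_eq_mul]
      _ ≤ ∑ j ∈ Finset.Icc n (2 * n), sphGrowth S (C * j) := by
          refine Finset.sum_le_sum fun j hj => ?_
          have h1 := (Finset.mem_Icc.1 hj).1
          exact (ball_mono hfin hS h1).trans (h j (by omega))
  · rintro ⟨C, hC, h⟩
    refine ⟨⟨1, le_rfl, fun n _ => by rw [one_mul]; exact sph_le_ball hfin hS n⟩, 3 * C ^ 3,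
      Nat.mul_pos (by norm_num) (Nat.pow_pos hC), fun n hn => ?_⟩
    set m := 3 * C * n with hm
    have hm1 : 1 ≤ m := Nat.mul_pos (Nat.mul_pos (by norm_num) hC) hn
    have h1 := h m hm1
    have h2 := h (C * m) (Nat.mul_pos hC hm1)
    have h3 : ballGrowth S n ≤ ballGrowth S m := by
      apply ball_mono hfin hS
      rw [hm]
      exact Nat.le_mul_of_pos_left _ (Nat.mul_pos (by norm_num) hC)
    have h4 : C * (C * m) = 3 * C ^ 3 * n := by rw [hm]; ring
    rw [h4] at h2
    have h5 := ball_le_sphere (S := S) hfin hS (3 * C ^ 3 * n)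
    have hC3 : 1 ≤ C ^ 3 := Nat.one_le_pow _ _ hC
    have h6 : (2 * (3 * C ^ 3 * n) + 1) * ballGrowth S n ≤
        (2 * (3 * C ^ 3 * n) + 1) * sphGrowth S (3 * C ^ 3 * n) := by
      refine le_trans ?_ (h2.trans h5)
      calc (2 * (3 * C ^ 3 * n) + 1) * ballGrowth S n
          ≤ (C * m * m) * ballGrowth S n := by
            apply Nat.mul_le_mul_right
            have h7 : C * m * m = 9 * C ^ 3 * (n * n) := by rw [hm]; ring
            rw [h7]
            have h8 : n ≤ n * n := Nat.le_mul_self n
            nlinarith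
        _ ≤ (C * m * m) * ballGrowth S m := Nat.mul_le_mul_left _ h3
        _ = C * m * (m * ballGrowth S m) := by ring
        _ ≤ C * m * ballGrowth S (C * m) := Nat.mul_le_mul_left _ h1
    exact Nat.le_of_mul_le_mul_left h6 (by omega)

/-! ## Exponential and polynomial growth -/

theorem ball_add (hfin : S.Finite) (hS : Subgroup.closure S = ⊤) (m n : ℕ) :
    ballGrowth S (m + n) ≤ ballGrowth S m * ballGrowth S n := by
  classical
  unfold ballGrowth
  rw [← Set.ncard_prod]
  have h1 := (ball_finite hfin hS m).prod (ball_finite hfin hS n)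
  refine le_trans (Set.ncard_le_ncard ?_ (h1.image fun p : H × H => p.1 * p.2))
    (Set.ncard_image_le h1)
  intro g hg
  have hg' : wordLength S g ≤ m + n := hg
  obtain ⟨l, hl, hln, hlp⟩ := exists_geodesic hS g
  refine ⟨((l.take m).prod, (l.drop m).prod), ⟨?_, ?_⟩, ?_⟩
  · have h2 := wordLength_le (S := S) (l := l.take m) fun s hs => hl s (List.mem_of_mem_take hs)
    rw [List.length_take] at h2
    exact h2.trans (min_le_left _ _)
  · have h2 := wordLength_le (S := S) (l := l.drop m) fun s hs => hl s (List.mem_of_mem_drop hs)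
    rw [List.length_drop] at h2
    show wordLength S (l.drop m).prod ≤ n
    omega
  · show (l.take m).prod * (l.drop m).prod = g
    rw [← List.prod_append, List.take_append_drop, hlp]

theorem ball_le_pow (hfin : S.Finite) (hS : Subgroup.closure S = ⊤) (n : ℕ) :
    ballGrowth S n ≤ ballGrowth S 1 ^ n := by
  induction n with
  | zero =>
    rw [pow_zero]
    unfold ballGrowth
    rw [Set.ncard_le_one (ball_finite hfin hS 0)]
    have key : ∀ g : H, wordLength S g ≤ 0 → g = 1 := by
      intro g hg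
      obtain ⟨l, -, hln, hlp⟩ := exists_geodesic hS g
      have : l = [] := List.length_eq_zero_iff.1 (by omega)
      rw [← hlp, this, List.prod_nil]
    intro a ha b hb
    rw [key a ha, key b hb]
  | succ n ih =>
    rw [pow_succ]
    exact (ball_add hfin hS n 1).trans (Nat.mul_le_mul_right _ ih)

/-- Groups of exponential growth. -/
theorem exponential [Infinite H] (hfin : S.Finite) (hS : Subgroup.closure S = ⊤) {r : ℝ}
    (hr : 1 < r) (h : ∀ n : ℕ, r ^ n ≤ ballGrowth S n) :
    GrowthEquiv (sphGrowth S) (ballGrowth S) := by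
  rw [criterion hfin hS]
  obtain ⟨k, hk⟩ := pow_unbounded_of_one_lt (2 * ballGrowth S 1 : ℝ) hr
  refine ⟨k + 1, by omega, fun n hn => ?_⟩
  have h1 : (n : ℝ) ≤ 2 ^ n := by exact_mod_cast (Nat.lt_two_pow_self (n := n)).le
  have h2 : (ballGrowth S n : ℝ) ≤ (ballGrowth S 1 : ℝ) ^ n := by
    exact_mod_cast ball_le_pow hfin hS n
  have h3 : ((n * ballGrowth S n : ℕ) : ℝ) ≤ (ballGrowth S ((k + 1) * n) : ℕ) := by
    push_cast
    calc (n : ℝ) * ballGrowth S n ≤ 2 ^ n * (ballGrowth S 1 : ℝ) ^ n := by gcongr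
      _ = (2 * ballGrowth S 1 : ℝ) ^ n := by rw [mul_pow]
      _ ≤ (r ^ k) ^ n := by gcongr
      _ = r ^ (k * n) := by rw [pow_mul]
      _ ≤ r ^ ((k + 1) * n) := pow_le_pow_right₀ hr.le (by nlinarith)
      _ ≤ _ := h _
  exact_mod_cast h3

/-- Groups of polynomial growth. -/
theorem polynomial [Infinite H] (hfin : S.Finite) (hS : Subgroup.closure S = ⊤) {D : ℕ}
    (h : ∀ n : ℕ, 1 ≤ n → ballGrowth S n ≤ D * n ^ D) :
    ¬ GrowthEquiv (sphGrowth S) (ballGrowth S) := by
  rw [criterion hfin hS]
  rintro ⟨C₀, hC₀, h₀⟩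
  -- we may take `C ≥ 2`
  set C := 2 * C₀ with hCdef
  have hC : 2 ≤ C := by omega
  have h1 : ∀ n : ℕ, 1 ≤ n → n * ballGrowth S n ≤ ballGrowth S (C * n) := by
    intro n hn
    refine (h₀ n hn).trans (ball_mono hfin hS ?_)
    apply Nat.mul_le_mul_right
    omega
  have h2 : ∀ k : ℕ, C ^ (k * (k - 1) / 2) ≤ ballGrowth S (C ^ k) := by
    intro k
    induction k with
    | zero => simpa using ball_pos hfin hS 1
    | succ k ih =>
      have h3 := h1 (C ^ k) (Nat.one_le_pow _ _ (by omega))
      have h4 : (k + 1) * (k + 1 - 1) / 2 = k + k * (k - 1) / 2 := by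
        rw [Nat.add_sub_cancel]
        have h5 : (k + 1) * k = 2 * k + k * (k - 1) := by
          cases k with
          | zero => rfl
          | succ j => rw [Nat.add_sub_cancel]; ring
        rw [h5, Nat.mul_add_div (by norm_num)]
      rw [h4, pow_add, show C ^ (k + 1) = C * C ^ k from pow_succ' C k]
      exact (Nat.mul_le_mul_left _ ih).trans h3
  have h3 := (h2 (2 * D + 3)).trans (h (C ^ (2 * D + 3)) (Nat.one_le_pow _ _ (by omega)))
  have h4 : (2 * D + 3) * (2 * D + 3 - 1) / 2 = (2 * D + 3) * D + (2 * D + 3) := by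
    rw [show 2 * D + 3 - 1 = 2 * (D + 1) by omega, show (2 * D + 3) * (2 * (D + 1)) =
      2 * ((2 * D + 3) * D + (2 * D + 3)) by ring, Nat.mul_div_cancel_left _ (by norm_num)]
  rw [h4, pow_add, ← pow_mul, mul_comm D] at h3
  have h5 := Nat.le_of_mul_le_mul_left h3 (Nat.pow_pos (by omega))
  have h6 : D < 2 ^ D := Nat.lt_two_pow_self
  have h7 : 2 ^ D ≤ C ^ (2 * D + 3) :=
    (Nat.pow_le_pow_left hC D).trans (Nat.pow_le_pow_right (by omega) (by omega))
  omega

/-! ## Change of the generating set -/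

theorem change {S' : Set H} (hfin : S.Finite) (hS : Subgroup.closure S = ⊤)
    (hfin' : S'.Finite) (hS' : Subgroup.closure S' = ⊤) :
    ∃ K : ℕ, 1 ≤ K ∧ ∀ n, ballGrowth S n ≤ ballGrowth S' (K * n) := by
  obtain ⟨K, hK⟩ : ∃ K, ∀ s ∈ S, wordLength S' s ≤ K := by
    obtain ⟨K, hK⟩ := (hfin.image fun s => wordLength S' s).bddAbove
    exact ⟨K, fun s hs => hK ⟨s, hs, rfl⟩⟩
  refine ⟨K + 1, by omega, fun n => ?_⟩
  refine Set.ncard_le_ncard ?_ (ball_finite hfin' hS' _)
  intro g hg
  have hg' : wordLength S g ≤ n := hg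
  obtain ⟨l, hl, hln, hlp⟩ := exists_geodesic hS g
  have key : ∀ l : List H, (∀ s ∈ l, s ∈ S ∨ s⁻¹ ∈ S) →
      wordLength S' l.prod ≤ (K + 1) * l.length := by
    intro l
    induction l with
    | nil => intro _; simp [wordLength_one]
    | cons x l ih =>
      intro hl
      have h1 := ih fun s hs => hl s (List.mem_cons_of_mem _ hs)
      have h2 : wordLength S' x ≤ K + 1 := by
        rcases hl x List.mem_cons_self with h3 | h3
        · exact (hK x h3).trans (by omega)
        · rw [← wordLength_inv hS' x]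
          exact (hK _ h3).trans (by omega)
      have h3 := wordLength_mul hS' x l.prod
      rw [List.prod_cons, List.length_cons]
      nlinarith
  have h1 := key l hl
  rw [hlp, hln] at h1
  exact h1.trans (Nat.mul_le_mul_left _ hg')

/-- The criterion does not depend on the generating set. -/
theorem equiv_change {S' : Set H} [Infinite H] (hfin : S.Finite) (hS : Subgroup.closure S = ⊤)
    (hfin' : S'.Finite) (hS' : Subgroup.closure S' = ⊤)
    (h : GrowthEquiv (sphGrowth S) (ballGrowth S)) :
    GrowthEquiv (sphGrowth S') (ballGrowth S') := by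
  rw [criterion hfin hS] at h
  rw [criterion hfin' hS']
  obtain ⟨C, hC, h⟩ := h
  obtain ⟨K, hK, hK'⟩ := change hfin' hS' hfin hS
  obtain ⟨K₂, hK₂, hK₂'⟩ := change hfin hS hfin' hS'
  refine ⟨K₂ * (C * K), Nat.mul_pos hK₂ (Nat.mul_pos hC hK), fun n hn => ?_⟩
  calc n * ballGrowth S' n ≤ (K * n) * ballGrowth S (K * n) :=
        Nat.mul_le_mul (Nat.le_mul_of_pos_left n hK) (hK' n)
    _ ≤ ballGrowth S (C * (K * n)) := h _ (Nat.mul_pos hK hn)
    _ ≤ ballGrowth S' (K₂ * (C * (K * n))) := hK₂' _
    _ = ballGrowth S' (K₂ * (C * K) * n) := by ring_nf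

end General

end Pool.Agent.Lib.MP_03d093_al
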