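import Pool.Agent.Lib.MP_03d093_al.General

/-!
# MP_03d093_al : the first Grigorchuk group
-/

set_option autoImplicit false

namespace Pool.Agent.Lib.MP_03d093_al

/-- Vertices of the rooted binary tree: finite words over `{0,1}`; `false` is the letter `0` and
`true` is the letter `1`. -/
abbrev Word : Type := List Bool

/-- `a(0w) = 1w`, `a(1w) = 0w`. -/
def aFun : Word → Word
  | [] => []
  | x :: w => (!x) :: w

mutual
  /-- `b(0w) = 0 a(w)`, `b(1w) = 1 c(w)`. -/
  def bFun : Word → Word
    | [] => []
    | false :: w => false :: aFun w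
    | true :: w => true :: cFun w
  /-- `c(0w) = 0 a(w)`, `c(1w) = 1 d(w)`. -/
  def cFun : Word → Word
    | [] => []
    | false :: w => false :: aFun w
    | true :: w => true :: dFun w
  /-- `d(0w) = 0w`, `d(1w) = 1 b(w)`. -/
  def dFun : Word → Word
    | [] => []
    | false :: w => false :: w
    | true :: w => true :: bFun w
end

theorem aFun_aFun (w : Word) : aFun (aFun w) = w := by
  cases w with
  | nil => rfl
  | cons x w => simp [aFun]

theorem bcd_invol (w : Word) :
    bFun (bFun w) = w ∧ cFun (cFun w) = w ∧ dFun (dFun w) = w := by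
  induction w with
  | nil => simp [bFun, cFun, dFun]
  | cons x w ih =>
    obtain ⟨h1, h2, h3⟩ := ih
    cases x <;> simp [bFun, cFun, dFun, aFun_aFun, h1, h2, h3]

/-- The generator `a` of the Grigorchuk group, as a permutation of the vertices of the tree. -/
def a : Equiv.Perm Word := ⟨aFun, aFun, aFun_aFun, aFun_aFun⟩
/-- The generator `b`. -/
def b : Equiv.Perm Word := ⟨bFun, bFun, fun w => (bcd_invol w).1, fun w => (bcd_invol w).1⟩
/-- The generator `c`. -/
def c : Equiv.Perm Word := ⟨cFun, cFun, fun w => (bcd_invol w).2.1, fun w => (bcd_invol w).2.1⟩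
/-- The generator `d`. -/
def d : Equiv.Perm Word := ⟨dFun, dFun, fun w => (bcd_invol w).2.2, fun w => (bcd_invol w).2.2⟩

/-- The first Grigorchuk group: the group of permutations of the vertices generated by `a`, `b`,
`c`, `d`. -/
def G : Subgroup (Equiv.Perm Word) := Subgroup.closure {a, b, c, d}

/-- The generating set `{a,b,c,d}`, as a subset of `G`. -/
def gens : Set G := {g | (g : Equiv.Perm Word) ∈ ({a, b, c, d} : Set (Equiv.Perm Word))}

/-! ## Basic facts -/

theorem a_cons (x : Bool) (w : Word) : a (x :: w) = (!x) :: w := rfl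
theorem b_false (w : Word) : b (false :: w) = false :: a w := by
  change bFun (false :: w) = false :: aFun w
  simp [bFun]
theorem b_true (w : Word) : b (true :: w) = true :: c w := by
  change bFun (true :: w) = true :: cFun w
  simp [bFun]
theorem c_false (w : Word) : c (false :: w) = false :: a w := by
  change cFun (false :: w) = false :: aFun w
  simp [cFun]
theorem c_true (w : Word) : c (true :: w) = true :: d w := by
  change cFun (true :: w) = true :: dFun w
  simp [cFun]
theorem d_false (w : Word) : d (false :: w) = false :: w := by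
  change dFun (false :: w) = false :: w
  simp [dFun]
theorem d_true (w : Word) : d (true :: w) = true :: b w := by
  change dFun (true :: w) = true :: bFun w
  simp [dFun]
theorem d_nil : d [] = [] := by
  change dFun [] = []
  simp [dFun]
theorem a_nil : a [] = [] := rfl

theorem a_inv : a⁻¹ = a := rfl
theorem b_inv : b⁻¹ = b := rfl
theorem c_inv : c⁻¹ = c := rfl
theorem d_inv : d⁻¹ = d := rfl

theorem a_mul_a : a * a = 1 := by
  have h := mul_inv_cancel a
  rwa [a_inv] at h

theorem d_mul_d : d * d = 1 := by
  have h := mul_inv_cancel d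
  rwa [d_inv] at h

/-- The generators as elements of `G`. -/
def aG : G := ⟨a, Subgroup.subset_closure (by simp)⟩
def bG : G := ⟨b, Subgroup.subset_closure (by simp)⟩
def cG : G := ⟨c, Subgroup.subset_closure (by simp)⟩
def dG : G := ⟨d, Subgroup.subset_closure (by simp)⟩

theorem gens_eq : gens = {aG, bG, cG, dG} := by
  ext g
  simp only [gens, Set.mem_ofPred_eq, Set.mem_insert_iff, Set.mem_singleton_iff]
  constructor
  · rintro (h | h | h | h)
    · exact Or.inl (Subtype.ext h)
    · exact Or.inr (Or.inl (Subtype.ext h))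
    · exact Or.inr (Or.inr (Or.inl (Subtype.ext h)))
    · exact Or.inr (Or.inr (Or.inr (Subtype.ext h)))
  · rintro (rfl | rfl | rfl | rfl)
    · exact Or.inl rfl
    · exact Or.inr (Or.inl rfl)
    · exact Or.inr (Or.inr (Or.inl rfl))
    · exact Or.inr (Or.inr (Or.inr rfl))

theorem gens_finite : gens.Finite := by
  rw [gens_eq]
  exact Set.toFinite _

theorem gens_closure : Subgroup.closure gens = ⊤ :=
  Subgroup.closure_closure_coe_preimage (k := ({a, b, c, d} : Set (Equiv.Perm Word)))

theorem gens_inv {s : G} (hs : s ∈ gens) : s⁻¹ = s := by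
  rw [gens_eq] at hs
  rcases hs with rfl | rfl | rfl | rfl
  · exact Subtype.ext a_inv
  · exact Subtype.ext b_inv
  · exact Subtype.ext c_inv
  · exact Subtype.ext d_inv

theorem mem_gens_of_or {s : G} (hs : s ∈ gens ∨ s⁻¹ ∈ gens) : s ∈ gens := by
  rcases hs with h | h
  · exact h
  · have := gens_inv h
    rw [inv_inv] at this
    rw [this]; exact h

theorem wl_a : wordLength gens aG ≤ 1 := wordLength_gen (Or.inl (by rw [gens_eq]; simp))
theorem wl_b : wordLength gens bG ≤ 1 := wordLength_gen (Or.inl (by rw [gens_eq]; simp))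
theorem wl_c : wordLength gens cG ≤ 1 := wordLength_gen (Or.inl (by rw [gens_eq]; simp))
theorem wl_d : wordLength gens dG ≤ 1 := wordLength_gen (Or.inl (by rw [gens_eq]; simp))

/-! ## Sections: lifting an element to the subtree at `1` -/

/-- The finite set of values of the other section: the dihedral group of order eight generated
by `a` and `d`. -/
def D8 : Set (Equiv.Perm Word) :=
  {1, a, d, a * d, d * a, a * d * a, d * a * d, a * d * a * d}

theorem D8_finite : D8.Finite := by
  unfold D8; exact Set.toFinite _

theorem adad : a * d * a * d = d * a * d * a := by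
  ext1 w
  cases w with
  | nil => simp [Equiv.Perm.mul_apply, a_nil, d_nil]
  | cons x w => cases x <;> simp [Equiv.Perm.mul_apply, a_cons, d_false, d_true]

theorem D8_a {f : Equiv.Perm Word} (hf : f ∈ D8) : a * f ∈ D8 := by
  have haa := a_mul_a
  have h2 : ∀ x, a * (a * x) = x := fun x => by rw [← mul_assoc, haa, one_mul]
  rcases hf with rfl | rfl | rfl | rfl | rfl | rfl | rfl | rfl <;>
    simp [D8, mul_assoc, h2, haa]

theorem D8_d {f : Equiv.Perm Word} (hf : f ∈ D8) : d * f ∈ D8 := by
  have hdd := d_mul_d
  have h2 : ∀ x, d * (d * x) = x := fun x => by rw [← mul_assoc, hdd, one_mul]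
  have h3 : d * (a * (d * a)) = a * (d * (a * d)) := by
    have := adad
    simp only [mul_assoc] at this
    exact this.symm
  have h4 : d * (a * (d * (a * d))) = a * (d * a) := by
    have h5 := congrArg (fun x => x * d) h3
    simp only [mul_assoc, hdd, mul_one] at h5
    exact h5
  rcases hf with rfl | rfl | rfl | rfl | rfl | rfl | rfl | rfl <;>
    simp [D8, mul_assoc, h2, hdd, h3, h4]

theorem one_mem_D8 : (1 : Equiv.Perm Word) ∈ D8 := by simp [D8]

/-- Lifting one generator: the substitution `a ↦ aca`, `b ↦ d`, `c ↦ b`, `d ↦ c`. -/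
theorem lift_gen {s : G} (hs : s ∈ gens) :
    ∃ t : G, wordLength gens t ≤ 3 ∧ ∃ f : Equiv.Perm Word, (f = 1 ∨ f = a ∨ f = d) ∧
      ∀ w, t.1 (true :: w) = true :: s.1 w ∧ t.1 (false :: w) = false :: f w := by
  have hS := gens_closure
  rw [gens_eq] at hs
  rcases hs with rfl | rfl | rfl | rfl
  · refine ⟨aG * cG * aG, ?_, d, by simp, ?_⟩
    · have h1 := wordLength_mul hS aG cG
      have h2 := wordLength_mul hS (aG * cG) aG
      have := wl_a
      have := wl_c
      omega
    · intro w
      simp [aG, cG, Equiv.Perm.mul_apply, a_cons, c_false, c_true]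
  · refine ⟨dG, by have := wl_d; omega, 1, by simp, ?_⟩
    intro w
    simp [dG, bG, d_false, d_true]
  · refine ⟨bG, by have := wl_b; omega, a, by simp, ?_⟩
    intro w
    simp [bG, cG, b_false, b_true]
  · refine ⟨cG, by have := wl_c; omega, a, by simp, ?_⟩
    intro w
    simp [cG, dG, c_false, c_true]

/-- Lifting a word. -/
theorem lift_word (l : List G) (hl : ∀ s ∈ l, s ∈ gens) :
    ∃ t : G, wordLength gens t ≤ 3 * l.length ∧ ∃ f ∈ D8,
      ∀ w, t.1 (true :: w) = true :: l.prod.1 w ∧ t.1 (false :: w) = false :: f w := by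
  induction l with
  | nil =>
    refine ⟨1, by simp [wordLength_one], 1, one_mem_D8, ?_⟩
    intro w; simp
  | cons s l ih =>
    obtain ⟨t, htl, f, hf, hw⟩ := ih (fun x hx => hl x (by simp [hx]))
    obtain ⟨t', htl', f', hf', hw'⟩ := lift_gen (hl s (by simp))
    refine ⟨t' * t, ?_, f' * f, ?_, ?_⟩
    · have := wordLength_mul gens_closure t' t
      simp only [List.length_cons]
      omega
    · rcases hf' with rfl | rfl | rfl
      · simpa using hf
      · exact D8_a hf
      · exact D8_d hf
    · intro w
      simp [Equiv.Perm.mul_apply, hw, hw']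

/-- Lifting an element of `G`. -/
theorem lift_elt (g : G) :
    ∃ t : G, wordLength gens t ≤ 3 * wordLength gens g ∧ ∃ f ∈ D8,
      ∀ w, t.1 (true :: w) = true :: g.1 w ∧ t.1 (false :: w) = false :: f w := by
  obtain ⟨l, hl, hln, hlp⟩ := exists_geodesic gens_closure g
  obtain ⟨t, htl, f, hf, hw⟩ := lift_word l (fun s hs => mem_gens_of_or (hl s hs))
  rw [hln] at htl
  rw [hlp] at hw
  exact ⟨t, htl, f, hf, hw⟩

/-! ## `G` is infinite -/

instance : Infinite G := by
  by_contra hcon
  rw [not_infinite_iff_finite] at hcon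
  choose T hT using lift_elt
  have hinj : Function.Injective T := by
    intro g h hgh
    obtain ⟨-, f, -, hw⟩ := hT g
    obtain ⟨-, f', -, hw'⟩ := hT h
    apply Subtype.ext
    ext1 w
    have h1 := (hw w).1
    have h2 := (hw' w).1
    rw [hgh, h2] at h1
    exact (List.cons.inj h1).2.symm
  obtain ⟨g, hga⟩ := (Finite.injective_iff_surjective.1 hinj) aG
  obtain ⟨-, f, -, hw⟩ := hT g
  have h1 := (hw []).1
  rw [hga] at h1
  have h2 : a (true :: []) = true :: g.1 [] := h1
  rw [a_cons] at h2
  simp at h2

/-! ## Squaring inequality -/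

theorem ball_sq_le (n : ℕ) :
    ballGrowth gens n ^ 2 ≤ (D8.ncard) ^ 2 * ballGrowth gens (6 * n + 2) := by
  have hS := gens_closure
  choose T hTl F hFD hTF using lift_elt
  set B : Set G := {g | wordLength gens g ≤ n} with hB
  set B' : Set G := {g | wordLength gens g ≤ 6 * n + 2} with hB'
  set Φ : (G × G) → (G × (Equiv.Perm Word × Equiv.Perm Word)) :=
    fun p => (T p.1 * (aG * T p.2 * aG), (F p.1, F p.2)) with hΦ
  have hmaps : ∀ p ∈ B ×ˢ B, Φ p ∈ B' ×ˢ (D8 ×ˢ D8) := by
    rintro ⟨x, y⟩ ⟨hxn, hyn⟩
    have hxn' : wordLength gens x ≤ n := hxn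
    have hyn' : wordLength gens y ≤ n := hyn
    refine ⟨?_, ⟨hFD x, hFD y⟩⟩
    show wordLength gens (T x * (aG * T y * aG)) ≤ 6 * n + 2
    have h1 := wordLength_mul hS (T x) (aG * T y * aG)
    have h2 := wordLength_mul hS (aG * T y) aG
    have h3 := wordLength_mul hS aG (T y)
    have h4 := hTl x
    have h5 := hTl y
    have h6 := wl_a
    omega
  have hinj : Set.InjOn Φ (B ×ˢ B) := by
    rintro ⟨x, y⟩ - ⟨x', y'⟩ - h
    simp only [hΦ, Prod.mk.injEq] at h
    obtain ⟨h1, h2, h3⟩ := h
    have key : ∀ w, (T x).1 (a ((T y).1 (a w))) = (T x').1 (a ((T y').1 (a w))) := by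
      intro w
      have := congrArg (fun g : G => g.1 w) h1
      simpa [aG, Equiv.Perm.mul_apply] using this
    have hxx : x = x' := by
      have hall : ∀ w, x.1 (F y w) = x'.1 (F y w) := by
        intro w
        have := key (true :: w)
        simp only [a_cons, Bool.not_true, Bool.not_false, (hTF y _).2, (hTF y' _).2,
          (hTF x _).1, (hTF x' _).1, h3, List.cons.injEq, true_and] at this
        rw [h3]; exact this
      apply Subtype.ext
      ext1 w
      have := hall ((F y).symm w)
      simpa using this
    have hyy : y = y' := by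
      apply Subtype.ext
      ext1 w
      have := key (false :: w)
      simp only [a_cons, Bool.not_true, Bool.not_false, (hTF y _).1, (hTF y' _).1,
        (hTF x _).2, (hTF x' _).2, h2, List.cons.injEq, true_and] at this
      exact (F x').injective this
    rw [hxx, hyy]
  have hfin : (B' ×ˢ (D8 ×ˢ D8)).Finite :=
    (ball_finite gens_finite hS _).prod (D8_finite.prod D8_finite)
  have := Set.ncard_le_ncard_of_injOn Φ hmaps hinj hfin
  rw [Set.ncard_prod, Set.ncard_prod, Set.ncard_prod] at this
  calc ballGrowth gens n ^ 2 = B.ncard * B.ncard := sq _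
    _ ≤ B'.ncard * (D8.ncard * D8.ncard) := this
    _ = D8.ncard ^ 2 * B'.ncard := by ring

/-- In an infinite group the balls of radius `n` have at least `n + 1` elements. -/
theorem succ_le_ball {H : Type*} [Group H] [Infinite H] {S : Set H} (hfin : S.Finite)
    (hS : Subgroup.closure S = ⊤) (n : ℕ) : n + 1 ≤ ballGrowth S n := by
  choose l hl hlen hwl using exists_length hfin hS
  have hinj : Set.InjOn (fun i => (l i).prod) (Finset.range (n + 1) : Set ℕ) := by
    intro i _ j _ hij
    have := congrArg (wordLength S) hij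
    simpa [hwl] using this
  have hmaps : ∀ i ∈ (Finset.range (n + 1) : Set ℕ),
      (fun i => (l i).prod) i ∈ {g | wordLength S g ≤ n} := by
    intro i hi
    have : i < n + 1 := by simpa using hi
    show wordLength S (l i).prod ≤ n
    rw [hwl]
    omega
  have := Set.ncard_le_ncard_of_injOn _ hmaps hinj (ball_finite hfin hS n)
  rw [Set.ncard_coe_finset, Finset.card_range] at this
  exact this

/-- **The Grigorchuk group**: for every finite generating set the ball growth and the spherical
growth are equivalent. -/
theorem grig {S : Set G} (hfin : S.Finite) (hS : Subgroup.closure S = ⊤) :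
    GrowthEquiv (sphGrowth S) (ballGrowth S) := by
  refine equiv_change gens_finite gens_closure hfin hS ?_
  rw [criterion gens_finite gens_closure]
  set M := D8.ncard ^ 2 with hM
  have hM1 : 1 ≤ M := by
    have : 0 < D8.ncard := (Set.ncard_pos D8_finite).2 ⟨1, one_mem_D8⟩
    exact Nat.one_le_pow _ _ this
  refine ⟨8 * M, by omega, fun n hn => ?_⟩
  have hm : 1 ≤ M * n := Nat.mul_pos hM1 hn
  have h1 := (ball_sq_le (M * n)).trans (Nat.mul_le_mul_left M
    (ball_mono gens_finite gens_closure (show 6 * (M * n) + 2 ≤ 8 * M * n by nlinarith)))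
  have h2 := succ_le_ball gens_finite gens_closure (M * n)
  have h3 := ball_mono gens_finite gens_closure
    (show n ≤ M * n from Nat.le_mul_of_pos_left n hM1)
  have h4 : M * (n * ballGrowth gens n) ≤ M * ballGrowth gens (8 * M * n) := by
    refine le_trans ?_ h1
    rw [sq]
    calc M * (n * ballGrowth gens n) = (M * n) * ballGrowth gens n := by ring
      _ ≤ ballGrowth gens (M * n) * ballGrowth gens (M * n) := Nat.mul_le_mul (by omega) h3
  exact Nat.le_of_mul_le_mul_left h4 hM1

end Pool.Agent.Lib.MP_03d093_al
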